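import Mathlib

set_option autoImplicit false

namespace Pool.Agent.Results.MP_9095a7_co.Covered

open Finset

/-- `G` (edge set on `ℕ`) contains an induced copy of the `k`-uniform hypergraph `H` -/
def HasCopy {V : Type} (k : ℕ) (H : Set (Finset V)) (G : Set (Finset ℕ)) : Prop :=
  ∃ φ : V ↪ ℕ, ∀ e : Finset V, e.card = k → (e ∈ H ↔ e.map φ ∈ G)

/-- `G` is a strongly `H`-induced-saturated `k`-uniform hypergraph on `ℕ` -/
def Sat {V : Type} (k : ℕ) (H : Set (Finset V)) (G : Set (Finset ℕ)) : Prop :=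
  (∀ e ∈ G, e.card = k) ∧ ¬HasCopy k H G ∧ ∀ P : Set (Finset ℕ), P.Nonempty →
    (∀ e ∈ P, e.card = k) → (∀ v, {e ∈ P | v ∈ e}.Finite) → HasCopy k H (symmDiff G P)

theorem gen {V : Type} [Fintype V] {k : ℕ} (H : Set (Finset V)) (d : Prop)
    (h0 : ∃ e : Finset V, e.card = k ∧ ¬(e ∈ H ↔ d))
    (h : ∀ u v, u ≠ v → ∃ e : Finset V, e.card = k ∧ u ∈ e ∧ v ∈ e ∧ ¬(e ∈ H ↔ d)) :
    ∃ G : Set (Finset ℕ), ¬HasCopy k H G ∧ ∀ (B : Finset ℕ) (L : Finset (Finset ℕ)) (N : ℕ),
      ∃ n > N, (∀ b ∈ B, b < n) ∧ ((∀ φ : V ↪ ℕ, (∀ v, φ v ∈ insert n B) → ¬∀ e : Finset V,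
        e.card = k → (e ∈ H ↔ if n ∈ e.map φ then (e.map φ).erase n ∈ L else e.map φ ∈ G)) →
        ∀ s ⊆ B, (insert n s ∈ G ↔ s ∈ L)) := by
  classical
  obtain ⟨g, hg⟩ := exists_surjective_nat (Finset ℕ × Finset (Finset ℕ))
  let ex : ℕ → Set (Finset ℕ) → Set (Finset ℕ) := fun n S =>
    {e | if n ∈ e ∧ e.erase n ⊆ (g n.unpair.2).1 ∩ range n then e.erase n ∈ (g n.unpair.2).2
      else e ∈ S}
  obtain ⟨S, e0, e⟩ : ∃ S : ℕ → Set (Finset ℕ), S 0 = {_e | d} ∧ ∀ n : ℕ, S (n + 1) =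
      if HasCopy k H (ex n (S n)) then S n else ex n (S n) :=
    ⟨fun n => Nat.rec {_e | d} (fun n R => if HasCopy k H (ex n R) then R else ex n R) n, rfl,
      fun _ => rfl⟩
  have fr : ∀ n, ¬HasCopy k H (S n) := fun n => by
    induction n with
    | zero => exact fun ⟨φ, h⟩ => let ⟨e, a, b⟩ := h0; b (by simpa [e0] using h e a)
    | succ n ih =>
      rw [e]
      split_ifs
      assumption'
  have df : ∀ n (s : Finset ℕ), (∃ x ∈ s, n ≤ x) → (s ∈ S n ↔ d) := fun n => by
    induction n with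
    | zero => simp [e0]
    | succ n ih =>
      rintro s ⟨x, a, b⟩
      have := ih s ⟨x, a, by omega⟩
      rw [e]
      split_ifs
      · exact this
      · simp only [ex, Set.mem_ofPred_eq]
        rwa [if_neg fun c => by simpa using (mem_range.1 (mem_inter.1
          (c.2 (mem_erase.2 ⟨by omega, a⟩))).2).trans_le (by omega : n ≤ x)]
  have st : ∀ n m, n ≤ m → ∀ s : Finset ℕ, (∀ x ∈ s, x < n) → (s ∈ S m ↔ s ∈ S n) := by
    intro n m l s hs
    induction m, l using Nat.le_induction with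
    | base => rfl
    | succ m l ih =>
      rw [e]
      split_ifs
      · exact ih
      · simp only [ex, Set.mem_ofPred_eq]
        rwa [if_neg fun c => (hs m c.1).not_ge l]
  have sg : ∀ n (s : Finset ℕ), (∀ x ∈ s, x < n) → (s ∈ S (s.sup id + 1) ↔ s ∈ S n) := fun n s hs =>
    (st _ _ (le_max_left _ n) s fun x a => Nat.lt_succ_of_le (le_sup (f := id) a)).symm.trans
      (st _ _ (le_max_right _ n) s hs)
  refine ⟨{s | s ∈ S (s.sup id + 1)}, fun ⟨φ, h⟩ => fr (univ.sup φ + 1) ⟨φ, fun e a =>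
    (h e a).trans (sg _ _ fun x b => ?_)⟩, fun B L N => ?_⟩
  · obtain ⟨v, -, rfl⟩ := mem_map.1 b
    exact Nat.lt_succ_of_le (le_sup (mem_univ v))
  obtain ⟨m, hm⟩ := hg (B, L)
  obtain ⟨n, n1, n2, n3⟩ : ∃ n > N, (∀ b ∈ B, b < n) ∧ g n.unpair.2 = (B, L) := by
    have := Nat.left_le_pair (N + B.sup id + 1) m
    exact ⟨(N + B.sup id + 1).pair m, by omega, fun b hb => by
      have : b ≤ B.sup id := le_sup (f := id) hb
      omega, by rwa [Nat.unpair_pair]⟩
  have n4 : B ∩ range n = B := inter_eq_left.2 fun b hb => mem_range.2 (n2 b hb)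
  refine ⟨n, n1, n2, fun k1 s hs => ?_⟩
  have ns : n ∉ s := fun c => lt_irrefl _ (n2 n (hs c))
  simp only [Set.mem_ofPred_eq]
  rw [sg (n + 1) _ (forall_mem_insert _ _ _ |>.2 ⟨n.lt_succ_self, fun x c =>
    (n2 x (hs c)).trans n.lt_succ_self⟩), e, if_neg]
  · simp [ex, n3, n4, erase_insert ns, hs]
  rintro ⟨φ, c⟩
  simp only [ex, n3, n4, Set.mem_ofPred_eq] at c
  by_cases c1 : ∃ u, φ u = n
  swap
  · exact fr n ⟨φ, fun e a => by
      rw [c e a, if_neg fun q => c1 (let ⟨u, _, b⟩ := mem_map.1 q.1; ⟨u, b⟩)]⟩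
  obtain ⟨u, rfl⟩ := c1
  have c2 : ∀ v, φ v ∈ insert (φ u) B := fun v => by_contra fun q => by
    obtain ⟨e, a1, a2, a3, a4⟩ := h u v fun t => q (by simp [t])
    have := c e a1
    rw [if_neg fun t => q (mem_insert_of_mem (t.2 (mem_erase.2
      ⟨fun t => q (by simp [t]), mem_map_of_mem _ a3⟩)))] at this
    exact a4 (this.trans (df _ _ ⟨_, mem_map_of_mem _ a2, le_rfl⟩))
  refine k1 φ c2 fun e a => (c e a).trans ?_
  have c3 : ∀ x ∈ e.map φ, x ≠ φ u → x ∈ B := fun x t ne => by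
    obtain ⟨v, -, rfl⟩ := mem_map.1 t
    exact (mem_insert.1 (c2 v)).resolve_left ne
  by_cases t : φ u ∈ e.map φ
  · rw [if_pos t, if_pos ⟨t, fun x q => c3 x (mem_erase.1 q).2 (mem_erase.1 q).1⟩]
  · rw [if_neg t, if_neg fun q => t q.1]
    exact (sg _ _ fun x q => n2 x (c3 x q fun r => t (r ▸ q))).symm

/-- Strongly induced-saturated hypergraphs exist for `k ≥ 4`, and for `k = 3` when every pair of
vertices of `H` lies in an edge or every pair lies in a non-edge. -/
theorem result (k : ℕ) (hk : 3 ≤ k) (V : Type) [Fintype V] (H : Set (Finset V))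
    (_hH : ∀ e ∈ H, e.card = k) (h1 : H.Nonempty) (h2 : ∃ e : Finset V, e.card = k ∧ e ∉ H)
    (h3 : 4 ≤ k ∨ (∀ u v, u ≠ v → ∃ e ∈ H, u ∈ e ∧ v ∈ e) ∨
      ∀ u v, u ≠ v → ∃ e : Finset V, e.card = k ∧ e ∉ H ∧ u ∈ e ∧ v ∈ e) :
    ∃ G : Set (Finset ℕ), Sat k H G := by
  classical
  obtain ⟨d, hd⟩ : ∃ d : Prop, ∀ u v, u ≠ v →
      ∃ e : Finset V, e.card = k ∧ u ∈ e ∧ v ∈ e ∧ ¬(e ∈ H ↔ d) := by
    by_contra q
    push Not at q
    obtain ⟨a, b, ab, q1⟩ := q False
    obtain ⟨c, d, cd, q2⟩ := q True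
    rcases h3 with h | h | h
    · obtain ⟨e, e1, -⟩ := h2
      obtain ⟨s, s1, -, s2⟩ := exists_subsuperset_card_eq (subset_univ {a, b, c, d})
        (card_le_four.trans h) (e1 ▸ card_le_univ e)
      exact (q1 s s2 (s1 (by simp)) (s1 (by simp))).1 ((q2 s s2 (s1 (by simp)) (s1 (by simp))).2 trivial)
    · obtain ⟨e, e1, e2, e3⟩ := h a b ab
      exact (q1 e (_hH e e1) e2 e3).1 e1
    · obtain ⟨e, e0, e1, e2, e3⟩ := h c d cd
      exact e1 ((q2 e e0 e2 e3).2 trivial)
  have two : ∀ p : Prop, ∃ e : Finset V, e.card = k ∧ ¬(e ∈ H ↔ p) := fun p => by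
    by_cases q : p
    exacts [h2.imp fun e a => ⟨a.1, by simp [q, a.2]⟩,
      h1.imp fun e a => ⟨_hH e a, by simp [q, a]⟩]
  obtain ⟨G, g1, g2⟩ := gen H d (two d) hd
  refine ⟨{e ∈ G | e.card = k}, fun e h => h.2, fun ⟨φ, h⟩ => g1 ⟨φ, fun e a => by
    simpa [a] using h e a⟩, fun P ⟨e0, p0⟩ p1 p2 => ?_⟩
  obtain ⟨f, f1, f2⟩ := two (e0 ∈ G)
  let H' : Finset V → Prop := fun e => if e = f then e0 ∈ G else e ∈ H
  have ne : ∀ θ : V ↪ V, ¬∀ e : Finset V, e.card = k → (e ∈ H ↔ H' (e.map θ)) := fun θ q => by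
    have : #{e : Finset V | e.card = k ∧ e ∈ H} = #{e : Finset V | e.card = k ∧ H' e} :=
      card_bijective (Finset.map θ) (Finite.injective_iff_bijective.1 (map_injective θ)) fun e => by
        simp only [mem_filter, mem_univ, true_and, card_map]
        exact and_congr_right (q e)
    by_cases t : f ∈ H
    · refine (card_lt_card ⟨fun e => ?_, fun c => ?_⟩).ne' this
      · by_cases r : e = f <;> simp +contextual [H', r, t]
      · simpa [H', f1, show e0 ∉ G by tauto] using c (show f ∈ _ by simp [f1, t])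
    · refine (card_lt_card ⟨fun e => ?_, fun c => ?_⟩).ne this
      · by_cases r : e = f <;> simp +contextual [H', r, t]
      · simpa [f1, t] using c (show f ∈ _ by simp [H', f1, show e0 ∈ G by tauto])
  have key : ∀ U : Finset V, ∃ ψ : V → ℕ, Set.InjOn ψ (f ∪ U : Finset V) ∧ f.image ψ = e0 ∧
      ∀ e ⊆ f ∪ U, e.card = k → (e.image ψ ∈ G ↔ H' e) ∧ (e ≠ f → e.image ψ ∉ P) := by
    intro U
    induction U using Finset.induction_on with
    | empty =>
      obtain ⟨ψ, a⟩ := Set.Finite.exists_bijOn_of_encard_eq (s := (f : Set V)) (t := (e0 : Set ℕ))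
        f.finite_toSet (by simp [f1, p1 e0 p0])
      have b : f.image ψ = e0 := coe_injective (by rw [coe_image, a.image_eq])
      refine ⟨ψ, by simpa using a.injOn, b, fun e c t => ?_⟩
      obtain rfl : e = f := eq_of_subset_of_card_le (by simpa using c) (by omega)
      simp [H', b]
    | insert w U hw ih =>
      obtain ⟨ψ, a1, a2, a3⟩ := ih
      by_cases wf : w ∈ f
      · exact ⟨ψ, by rwa [union_insert, insert_eq_of_mem (mem_union_left _ wf)], a2,
          by rwa [union_insert, insert_eq_of_mem (mem_union_left _ wf)]⟩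
      have wW : w ∉ f ∪ U := by simp [wf, hw]
      rw [union_insert]
      generalize hW : f ∪ U = W at *
      have fW : f ⊆ W := hW ▸ subset_union_left
      obtain ⟨N, hN⟩ := (((W.image ψ).finite_toSet.biUnion fun v _ => p2 v).biUnion
        fun e _ => e.finite_toSet).bddAbove
      obtain ⟨n, n1, n2, n3⟩ := g2 (W.image ψ)
        ((W.powerset.filter fun s => H' (insert w s)).image (image ψ)) N
      have nW : ∀ v ∈ W, ψ v ≠ n := fun v c => (n2 _ (mem_image_of_mem _ c)).ne
      have u1 : ∀ s ⊆ W, s.image (Function.update ψ w n) = s.image ψ := fun s c =>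
        image_congr fun v t => Function.update_of_ne (fun r : v = w => wW (r ▸ c t)) _ _
      have u2 : ∀ s ⊆ W, (insert w s).image (Function.update ψ w n) = insert n (s.image ψ) :=
        fun s c => by rw [image_insert, u1 s c, Function.update_self]
      have u3 : ∀ s ⊆ W, (s.image ψ ∈ (W.powerset.filter fun s => H' (insert w s)).image (image ψ) ↔
          H' (insert w s)) := fun s c => by
        simp only [mem_image, mem_filter, mem_powerset]
        exact ⟨fun ⟨s', t, r⟩ => image_injOn_powerset_of_injOn a1 (by simpa using t.1)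
          (by simpa using c) r ▸ t.2, fun t => ⟨s, ⟨c, t⟩, rfl⟩⟩
      have inj : Set.InjOn (Function.update ψ w n) (insert w W : Finset V) := by
        rw [coe_insert, Set.injOn_insert (by simpa using wW)]
        refine ⟨a1.congr fun v t => (Function.update_of_ne (fun r : v = w => wW (r ▸ t)) _ _).symm, ?_⟩
        rw [← coe_image, u1 W subset_rfl, Function.update_self]
        exact fun t => lt_irrefl _ (n2 n t)
      have cs : ∀ e ⊆ insert w W, e ⊆ W ∨ ∃ s ⊆ W, e = insert w s := fun e c => by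
        by_cases t : w ∈ e
        exacts [.inr ⟨e.erase w, subset_insert_iff.1 c, (insert_erase t).symm⟩,
          .inl ((subset_insert_iff_of_notMem t).1 c)]
      have ni : ∀ s ⊆ W, n ∉ s.image ψ := fun s c t =>
        lt_irrefl _ (n2 n (image_subset_image c t))
      replace n3 := n3 fun φ c t => by
        choose θ t1 t2 using fun v => mem_image.1 (u2 W subset_rfl ▸ c v)
        refine ne ⟨θ, fun x y r => φ.injective (by rw [← t2, ← t2, r])⟩ fun e a => (t e a).trans ?_
        have r : e.map φ = (e.image θ).image (Function.update ψ w n) := by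
          rw [image_image, map_eq_image]
          exact image_congr fun v _ => (t2 v).symm
        have r2 : (e.image θ).card = k := by
          rw [← card_image_of_injOn (inj.mono (coe_subset.2
            (image_subset_iff.2 fun v _ => t1 v))), ← r, card_map, a]
        rw [r, map_eq_image]
        change _ ↔ H' (e.image θ)
        rcases cs (e.image θ) (image_subset_iff.2 fun v _ => t1 v) with q | ⟨s, q, q'⟩
        · rw [u1 _ q, if_neg (ni _ q)]
          exact (a3 _ q r2).1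
        · rw [q', u2 s q, if_pos (mem_insert_self _ _), erase_insert (ni s q), u3 s q]
      refine ⟨_, inj, (u1 f fW).trans a2, fun e c t => ?_⟩
      rcases cs e c with q | ⟨s, q, rfl⟩
      · rw [u1 _ q]
        exact a3 e q t
      · rw [u2 s q, n3 _ (image_subset_image q), u3 s q]
        refine ⟨.rfl, fun _ r => n1.not_ge (hN (Set.mem_iUnion₂.2
          ⟨insert n (s.image ψ), ?_, mem_insert_self _ _⟩))⟩
        obtain ⟨v, hv⟩ : s.Nonempty := card_pos.1 (by have := card_insert_le w s; omega)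
        exact Set.mem_iUnion₂.2 ⟨ψ v, mem_image_of_mem _ (q hv), r,
          mem_insert_of_mem (mem_image_of_mem _ hv)⟩
  obtain ⟨ψ, a1, a2, a3⟩ := key univ
  refine ⟨⟨ψ, fun x y => a1 (by simp) (by simp)⟩, fun e a => ?_⟩
  have sb : e ⊆ f ∪ univ := (subset_univ e).trans subset_union_right
  obtain ⟨b1, b2⟩ := a3 e sb a
  have : (e.image ψ).card = k := by rwa [card_image_of_injOn (a1.mono (coe_subset.2 sb))]
  rw [map_eq_image]
  change _ ↔ e.image ψ ∈ _
  rcases eq_or_ne e f with rfl | c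
  · rw [a2, Set.mem_symmDiff, Set.mem_ofPred_eq]
    have := p1 e0 p0
    tauto
  · simp [Set.mem_symmDiff, b1, b2 c, this, H', c]

end Pool.Agent.Results.MP_9095a7_co.Covered
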